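import Mathlib

set_option autoImplicit false

/-! # Disjoint 2-paths without adjacencies: pure combinatorics -/

namespace Pool.Agent.Helper71.TD

open Finset

variable {Q J : Type*} [DecidableEq Q]

/-- the 2-path of colour `a` with middle vertex `x` closes a triangle with an edge of colour `c` -/
def Bad (n : J → Q → Finset Q) (c a : J) (x : Q) : Prop :=
  ∃ y z, y ∈ n a x ∧ z ∈ n a x ∧ z ∈ n c y

/-- `n a x` are the neighbours of `x` in the 2-factor `a`; different 2-factors are disjoint; no two
neighbouring middle vertices are bad -/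
structure Nbs (n : J → Q → Finset Q) : Prop where
  card : ∀ a x, (n a x).card = 2
  symm : ∀ a x y, y ∈ n a x → x ∈ n a y
  irr : ∀ a x, x ∉ n a x
  disj : ∀ a b x, a ≠ b → Disjoint (n a x) (n b x)
  bad : ∀ a c c' x y, c ≠ a → c' ≠ a → y ∈ n a x → Bad n c a x → ¬ Bad n c' a y

end Pool.Agent.Helper71.TD
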