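import Pool.Agent.Helper4.BL.Rows

set_option autoImplicit false

/-!
# The top-down step for fibres of odd order: definitions
-/

namespace Pool.Agent.Helper71.TD

open Finset Pool.Agent.Helper74.BL Pool.Agent.Helper4.BL.Ring

section Enum

variable {Q J : Type*} [AddCommGroup Q]

/-- `y` is a cyclic enumeration of the Hamilton cycle of colour `a`; the edge number `i` joins
`y i` and `y (i + 1)` and has the label `j i`; it is `(y i, j i)` if `ε i = true` and
`(y (i + 1), j i)` if `ε i = false` -/
structure IsEnum (q : J → Q) (col : Q → J → J) (a : J) (M : ℕ) (y : ℕ → Q) (j : ℕ → J)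
    (ε : ℕ → Bool) : Prop where
  yper : ∀ i, y (i + M) = y i
  jper : ∀ i, j (i + M) = j i
  eper : ∀ i, ε (i + M) = ε i
  inj : ∀ i < M, ∀ k < M, y i = y k → i = k
  surj : ∀ x, ∃ i < M, y i = x
  pos : ∀ i, ε i = true → y (i + 1) = y i + q (j i) ∧ col (y i) (j i) = a
  neg : ∀ i, ε i = false → y i = y (i + 1) + q (j i) ∧ col (y (i + 1)) (j i) = a

/-- properties of the labels of a chain independent family in a group of odd order -/
structure Lab (q : J → Q) : Prop where
  ne : ∀ i, q i ≠ 0
  inj : ∀ i j, q i = q j → i = j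
  neg : ∀ i j, q i + q j ≠ 0
  tri1 : ∀ i j k, q i + q j ≠ q k
  tri2 : ∀ i j k, q i + q j + q k = 0 → i = j ∧ j = k

variable [Fintype J] [DecidableEq J] [DecidableEq Q]

/-- the neighbours of `x` in the class `a` -/
def nb (q : J → Q) (col : Q → J → J) (a : J) (x : Q) : Finset Q :=
  ((univ.filter fun j => col x j = a).image fun j => x + q j) ∪
    ((univ.filter fun j => col (x - q j) j = a).image fun j => x - q j)

end Enum

section Rows

variable {N : ℕ} [NeZero N]

/-- all closed families of rows are constant: the letters `u k` on the edges `k < M` of the base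
cycle (closing shift `κ`) give a single loop -/
def RC (u : ℕ → List (ZMod N)) (M : ℕ) (κ : ZMod N) : Prop :=
  ∀ R : ℕ → ZMod N → ZMod 2, (∀ k < M, MStep (u k) (R k) (R (k + 1))) →
    (∀ t, R M t = R 0 (t + κ)) → ∀ k ≤ M, ∀ t, R k t = R 0 0

/-- the gaps `m + 1, m + 3, ..., m + 2 h - 1` -/
def dA (m : ZMod N) (h : ℕ) : List (ZMod N) :=
  (List.range h).map fun i => m + 1 + 2 * (i : ZMod N)

/-- the gaps `m + 2, m + 4, ..., m + 2 h` -/
def dB (m : ZMod N) (h : ℕ) : List (ZMod N) :=
  (List.range h).map fun i => m + 2 + 2 * (i : ZMod N)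

/-- the dense word: letters on the edges `k`, `k + 1` in the gaps `m + 1, ..., m + 2 h`,
alternating, beginning on the edge `k` if `τ = true` -/
def dw (τ : Bool) (m : ZMod N) (h k : ℕ) : ℕ → List (ZMod N) := fun i =>
  if i = k then (if τ then dA m h else dB m h)
  else if i = k + 1 then (if τ then dB m h else dA m h) else []

end Rows

end Pool.Agent.Helper71.TD
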