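import Pool.Agent.Helper71.TD.Defs

set_option autoImplicit false
set_option linter.unusedSectionVars false
set_option linter.unusedVariables false

/-! # Rows: single neutral letters, neutral pairs at any place -/

namespace Pool.Agent.Helper71.TD

open Finset Pool.Agent.Helper74.BL Pool.Agent.Helper4.BL Pool.Agent.Helper4.BL.Ring

variable {N : ℕ} [NeZero N] {u : ℕ → List (ZMod N)} {M : ℕ} {κ : ZMod N}

theorem RC.of_single (hu : ∀ k < M, Far (u k)) (hS : Single (wordOf u M) κ) : RC u M κ :=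
  fun _ h1 h2 => rows_const hu hS h1 h2

namespace RowsOdd

theorem mstep_map₂ {u : List (ZMod N)} {a b a' b' : ZMod N → ZMod 2} (h : MStep u a b)
    (h' : MStep u a' b') (φ : ZMod 2 → ZMod 2 → ZMod 2) :
    MStep u (fun t => φ (a t) (a' t)) (fun t => φ (b t) (b' t)) :=
  ⟨fun t h1 h2 => by simp only [h.1 t h1 h2, h'.1 t h1 h2],
    fun t ht => ⟨by simp only [(h.2 t ht).1, (h'.2 t ht).1],
      by simp only [(h.2 t ht).2, (h'.2 t ht).2]⟩⟩

theorem mstep_sum (hN : 2 ≤ N) {u : List (ZMod N)} (hu : Far u) {a b : ZMod N → ZMod 2}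
    (h : MStep u a b) : ∑ t, a t = ∑ t, b t := by
  obtain ⟨C, c1, c2, c3⟩ := h.path hu (v := []) (C := fun _ => a) trivial rfl
  have h1 := c1.sum hN
  rw [c3, c2 0 (Nat.zero_le _)] at h1
  exact h1.symm

/-- rows fitting to the letters of the edges outside `[k, k + d)` -/
def Out (u : ℕ → List (ZMod N)) (M : ℕ) (κ : ZMod N) (k d : ℕ) (R : ℕ → ZMod N → ZMod 2) :
    Prop :=
  (∀ j < M, (j < k ∨ k + d ≤ j) → MStep (u j) (R j) (R (j + 1))) ∧ ∀ t, R M t = R 0 (t + κ)

theorem Out.map₂ {k d : ℕ} {R S : ℕ → ZMod N → ZMod 2} (h : Out u M κ k d R)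
    (h' : Out u M κ k d S) (φ : ZMod 2 → ZMod 2 → ZMod 2) :
    Out u M κ k d fun j t => φ (R j t) (S j t) :=
  ⟨fun j hj hj' => mstep_map₂ (h.1 j hj hj') (h'.1 j hj hj') φ,
    fun t => by simp only [h.2 t, h'.2 t]⟩

theorem out_zero (k d : ℕ) : Out u M κ k d fun _ _ => 0 :=
  ⟨fun _ _ _ => ⟨fun _ _ _ => rfl, fun _ _ => ⟨rfl, rfl⟩⟩, fun _ => rfl⟩

theorem out_sum {k d : ℕ} {C : ℕ → ℕ → ZMod N → ZMod 2} (h : ∀ n, Out u M κ k d (C n)) (n : ℕ) :
    Out u M κ k d fun j t => ∑ i ∈ range n, C i j t := by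
  induction n with
  | zero => simpa using out_zero k d
  | succ n ih =>
    simp only [sum_range_succ]
    exact ih.map₂ (h n) fun x y => x + y

/-- the sums of the rows `k` and `k + d` are the same -/
theorem Out.sum (hN : 2 ≤ N) (hu : ∀ j < M, Far (u j)) {k d : ℕ} (hk : k + d ≤ M)
    {R : ℕ → ZMod N → ZMod 2} (h : Out u M κ k d R) : ∑ t, R k t = ∑ t, R (k + d) t := by
  have h1 : ∀ i, i ≤ k → ∑ t, R i t = ∑ t, R 0 t := by
    intro i
    induction i with
    | zero => intro _; rfl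
    | succ i ih =>
      intro hi
      rw [← ih (by omega)]
      exact (mstep_sum hN (hu i (by omega)) (h.1 i (by omega) (Or.inl (by omega)))).symm
  have h2 : ∀ i, k + d + i ≤ M → ∑ t, R (k + d + i) t = ∑ t, R (k + d) t := by
    intro i
    induction i with
    | zero => intro _; rfl
    | succ i ih =>
      intro hi
      rw [← ih (by omega)]
      exact (mstep_sum hN (hu (k + d + i) (by omega))
        (h.1 (k + d + i) (by omega) (Or.inr (by omega)))).symm
  have h3 := h2 (M - (k + d)) (by omega)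
  rw [(by omega : k + d + (M - (k + d)) = M)] at h3
  rw [h1 k le_rfl, ← h3]
  simp only [h.2]
  exact (Fintype.sum_equiv (Equiv.addRight κ) _ _ fun t => rfl).symm

theorem Out.inner (hN : 2 ≤ N) (hu : ∀ j < M, Far (u j)) {k d : ℕ} (hk : k + d ≤ M)
    {R S : ℕ → ZMod N → ZMod 2} (h : Out u M κ k d R) (h' : Out u M κ k d S) :
    ∑ t, R k t * S k t = ∑ t, R (k + d) t * S (k + d) t :=
  (h.map₂ h' fun x y => x * y).sum hN hu hk

/-- if the rows `k` and `k + d` are equal and there are no letters between them, then the rows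
are constant -/
theorem Out.const {k d : ℕ} (hk : k + d ≤ M) (hC : RC u M κ)
    (h0 : ∀ j, k ≤ j → j < k + d → u j = []) {R : ℕ → ZMod N → ZMod 2} (h : Out u M κ k d R)
    (he : R k = R (k + d)) : ∀ j ≤ M, (j ≤ k ∨ k + d ≤ j) → ∀ t, R j t = R 0 0 := by
  let R' : ℕ → ZMod N → ZMod 2 := fun j => if k ≤ j ∧ j ≤ k + d then R k else R j
  have e1 : ∀ j, (j ≤ k ∨ k + d ≤ j) → R' j = R j := by
    intro j hj
    by_cases h1 : k ≤ j ∧ j ≤ k + d
    · have h2 : R' j = R k := if_pos h1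
      rw [h2]
      rcases hj with hj | hj
      · rw [le_antisymm hj h1.1]
      · rw [le_antisymm h1.2 hj, he]
    · exact if_neg h1
  have h1 : ∀ j < M, MStep (u j) (R' j) (R' (j + 1)) := by
    intro j hj
    by_cases h2 : j < k
    · rw [e1 j (Or.inl h2.le), e1 (j + 1) (Or.inl h2)]
      exact h.1 j hj (Or.inl h2)
    · by_cases h3 : k + d ≤ j
      · rw [e1 j (Or.inr h3), e1 (j + 1) (Or.inr (by omega))]
        exact h.1 j hj (Or.inr h3)
      · push Not at h2 h3
        have h4 : R' j = R k := if_pos ⟨h2, h3.le⟩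
        have h5 : R' (j + 1) = R k := if_pos ⟨by omega, h3⟩
        rw [h4, h5, h0 j h2 h3]
        exact ⟨fun _ _ _ => rfl, fun t ht => absurd ht (by simp)⟩
  have h2 : ∀ t, R' M t = R' 0 (t + κ) := by
    intro t
    rw [e1 M (Or.inr hk), e1 0 (Or.inl (Nat.zero_le _))]
    exact h.2 t
  intro j hj hj' t
  have h3 := hC R' h1 h2 j hj t
  rwa [e1 j hj', e1 0 (Or.inl (Nat.zero_le _))] at h3

theorem not_rc {v : ℕ → List (ZMod N)} (h : ¬ RC v M κ) : ∃ R : ℕ → ZMod N → ZMod 2,
    (∀ k < M, MStep (v k) (R k) (R (k + 1))) ∧ (∀ t, R M t = R 0 (t + κ)) ∧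
      ∃ k ≤ M, ∃ t, R k t ≠ R 0 0 := by
  unfold RC at h
  push Not at h
  exact h

theorem rows_add {v : ℕ → List (ZMod N)} {R : ℕ → ZMod N → ZMod 2}
    (h : (∀ k < M, MStep (v k) (R k) (R (k + 1))) ∧ (∀ t, R M t = R 0 (t + κ)) ∧
      ∃ k ≤ M, ∃ t, R k t ≠ R 0 0) (c : ZMod 2) :
    (∀ k < M, MStep (v k) (fun t => R k t + c) (fun t => R (k + 1) t + c)) ∧
      (∀ t, R M t + c = R 0 (t + κ) + c) ∧ ∃ k ≤ M, ∃ t, R k t + c ≠ R 0 0 + c := by
  obtain ⟨h1, h2, k, hk, t, ht⟩ := h
  refine ⟨fun k hk => mstep_map₂ (h1 k hk) (h1 k hk) fun x _ => x + c,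
    fun t => by rw [h2 t], k, hk, t, fun h3 => ht (add_right_cancel h3)⟩

end RowsOdd

open RowsOdd

theorem RowsOdd.mstep_single {p : ZMod N} {a b : ZMod N → ZMod 2} (h : MStep [p] a b) : Step p a b := by
  refine ⟨fun t h1 h2 => h.1 t (by simpa using h1) fun h3 => h2 ?_, h.2 p (by simp)⟩
  rw [List.mem_singleton, sub_eq_iff_eq_add] at h3
  exact h3

/-- SINGLE NEUTRAL LETTER on a letter-free edge, `N` odd -/
theorem RC.one (hN : Odd N) (hN3 : 3 ≤ N) (hu : ∀ k < M, Far (u k)) (h : RC u M κ) {k : ℕ}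
    (hk : k < M) (h0 : u k = []) : ∃ t, RC (Function.update u k [t]) M κ := by
  classical
  by_contra hcon
  push Not at hcon
  have hN2 : 2 ≤ N := by omega
  have h0' : ∀ j, k ≤ j → j < k + 1 → u j = [] := by
    intro j h1 h2
    rw [(by omega : j = k), h0]
  -- the solutions
  have hex : ∀ t : ZMod N, ∃ R : ℕ → ZMod N → ZMod 2, Out u M κ k 1 R ∧ Step t (R k) (R (k + 1)) ∧
      R k t = 0 ∧ R (k + 1) t = 1 := by
    intro t
    obtain ⟨R₀, hR₀⟩ := not_rc (hcon t)
    obtain ⟨h1, h2, i, hi, s, his⟩ := rows_add hR₀ (R₀ k t)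
    set R : ℕ → ZMod N → ZMod 2 := fun j s => R₀ j s + R₀ k t with hR
    have ho : Out u M κ k 1 R := by
      refine ⟨fun j hj hj' => ?_, h2⟩
      have h3 := h1 j hj
      rwa [Function.update_of_ne (by omega)] at h3
    have hs : Step t (R k) (R (k + 1)) := by
      have h3 := h1 k hk
      rw [Function.update_self] at h3
      exact mstep_single h3
    have hz : R k t = 0 := Ring.z2_add_self _
    refine ⟨R, ho, hs, hz, ?_⟩
    by_contra hne
    have hz' : R (k + 1) t = 0 := by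
      have h3 : ∀ a : ZMod 2, a ≠ 1 → a = 0 := by decide
      exact h3 _ hne
    have he : R k = R (k + 1) := by
      funext x
      by_cases x0 : x = t
      · rw [x0, hz, hz']
      · by_cases x1 : x = t + 1
        · rw [x1, ← hs.2.1, ← hs.2.2, hz, hz']
        · exact hs.1 x x0 x1
    have h3 := ho.const (by omega) h h0' he
    apply his
    have h4 : ∀ j ≤ M, R j s = R 0 0 := fun j hj => h3 j hj (by omega) s
    exact h4 i hi
  choose C c1 c2 c3 c4 using hex
  let D : ℕ → ℕ → ZMod N → ZMod 2 := fun n => C (n : ZMod N)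
  let dl : ZMod N → ZMod N → ZMod 2 := fun p s => if s = p then 1 else 0
  have hself : ∀ p, dl p p = 1 := fun p => if_pos rfl
  have hne : ∀ p s, s ≠ p → dl p s = 0 := fun p s h => if_neg h
  have hstep : ∀ (n : ℕ) (s : ZMod N), D n (k + 1) s = D n k s + (dl n s + dl (n + 1) s) := by
    intro n s
    have n1 := ne_succ hN2 (n : ZMod N)
    by_cases s0 : s = (n : ZMod N)
    · rw [s0, hself, hne _ _ n1]
      show C (n : ZMod N) (k + 1) (n : ZMod N) = C (n : ZMod N) k (n : ZMod N) + (1 + 0)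
      rw [c3, c4]
      decide
    · by_cases s1 : s = (n : ZMod N) + 1
      · rw [s1, hself, hne _ _ n1.symm]
        show C (n : ZMod N) (k + 1) ((n : ZMod N) + 1) =
          C (n : ZMod N) k ((n : ZMod N) + 1) + (0 + 1)
        rw [← (c2 _).2.1, ← (c2 _).2.2, c3, c4]
        decide
      · rw [hne _ _ s0, hne _ _ s1, add_zero, add_zero]
        exact ((c2 (n : ZMod N)).1 s s0 s1).symm
  let S : ℕ → ℕ → ZMod N → ZMod 2 := fun n j s => ∑ i ∈ range n, D i j s
  have hSo : ∀ n, Out u M κ k 1 (S n) := fun n => out_sum (fun i => c1 (i : ZMod N)) n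
  have hSs : ∀ n s, S (n + 1) k s = S n k s + D n k s := fun n s => sum_range_succ _ _
  have hSs' : ∀ n s, S (n + 1) (k + 1) s = S n (k + 1) s + D n (k + 1) s :=
    fun n s => sum_range_succ _ _
  have hS : ∀ n s, S n (k + 1) s = S n k s + (dl 0 s + dl n s) := by
    intro n s
    induction n with
    | zero =>
      show ∑ i ∈ range 0, D i (k + 1) s = ∑ i ∈ range 0, D i k s + (dl 0 s + dl (0 : ℕ) s)
      rw [range_zero, sum_empty, sum_empty, Nat.cast_zero, Ring.z2_add_self, add_zero]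
    | succ n ih =>
      rw [hSs, hSs', ih, hstep, Nat.cast_succ]
      have h3 : ∀ a b x y z : ZMod 2, a + (x + y) + (b + (y + z)) = a + b + (x + z) := by decide
      exact h3 _ _ _ _ _
  -- values
  have d0 : ∀ n : ℕ, D n k (n : ZMod N) = 0 := fun n => c3 _
  have d1 : ∀ n : ℕ, D n k ((n : ZMod N) + 1) = 0 := fun n => by
    rw [← d0 n]
    exact ((c2 (n : ZMod N)).2.1).symm
  have hcast : ∀ n : ℕ, 0 < n → n < N → (n : ZMod N) ≠ 0 := by
    intro n h1 h2 h3
    rw [ZMod.natCast_eq_zero_iff] at h3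
    exact absurd (Nat.le_of_dvd h1 h3) (by omega)
  -- the product of `S n` and `D n`
  have hprod : ∀ n : ℕ, 0 < n → n + 1 < N →
      S n k (n : ZMod N) + S n k ((n : ZMod N) + 1) + D n k 0 = 1 := by
    intro n hn hn'
    have h3 := (hSo n).inner hN2 hu (by omega) (c1 (n : ZMod N))
    have h4 : ∑ t, S n (k + 1) t * C (n : ZMod N) (k + 1) t =
        ∑ t, S n k t * D n k t + (S n k (n : ZMod N) + S n k ((n : ZMod N) + 1) + D n k 0 + 1) := by
      have e1 : ∀ t, S n (k + 1) t * C (n : ZMod N) (k + 1) t = S n k t * D n k t +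
          (S n k t * dl n t + S n k t * dl (n + 1) t + D n k t * dl 0 t + D n k t * dl n t +
            (dl 0 t * dl n t + dl 0 t * dl (n + 1) t + dl n t * dl n t +
              dl n t * dl (n + 1) t)) := by
        intro t
        rw [hS]
        have e2 := hstep n t
        change C (n : ZMod N) (k + 1) t = _ at e2
        rw [e2]
        ring
      have e3 : ∀ (c : ZMod N → ZMod 2) (p : ZMod N), ∑ t, c t * dl p t = c p := by
        intro c p
        rw [sum_eq_single p (fun t _ ht => by rw [hne _ _ ht, mul_zero]) (by simp), hself, mul_one]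
      simp only [e1, sum_add_distrib, e3]
      have n1 := ne_succ hN2 (n : ZMod N)
      rw [hself, d0, hne 0 (n : ZMod N) (hcast n hn (by omega)),
        hne 0 ((n : ZMod N) + 1) (by
          have := hcast (n + 1) (by omega) hn'
          rwa [Nat.cast_succ] at this), hne (n : ZMod N) ((n : ZMod N) + 1) n1.symm]
      ring
    rw [h4] at h3
    change ∑ t, S n k t * D n k t = _ at h3
    have h5 := left_eq_add.1 h3
    have h6 : ∀ a : ZMod 2, a + 1 = 0 → a = 1 := by decide
    exact h6 _ h5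
  -- the claim
  have hclaim : ∀ n : ℕ, n + 1 < N → S (n + 1) k 0 + S (n + 1) k ((n : ZMod N) + 1) = n := by
    intro n
    induction n with
    | zero =>
      intro _
      show ∑ i ∈ range 1, D i k 0 + ∑ i ∈ range 1, D i k (((0 : ℕ) : ZMod N) + 1) = _
      rw [sum_range_one, sum_range_one, d1 0]
      have := d0 0
      rw [Nat.cast_zero] at this
      rw [this, Nat.cast_zero, add_zero]
    | succ n ih =>
      intro hn
      have h3 := ih (by omega)
      have h4 := hprod (n + 1) (by omega) (by omega)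
      rw [hSs (n + 1), hSs (n + 1), d1 (n + 1)]
      rw [← Nat.cast_succ (R := ZMod N)] at h3
      have h5 : ((n + 1 : ℕ) : ZMod 2) = n + 1 := by push_cast; rfl
      rw [h5, ← h3]
      have h6 : ∀ a b c d : ZMod 2, b + c + d = 1 → a + d + (c + 0) = a + b + 1 := by decide
      exact h6 _ _ _ _ h4
  -- the end
  obtain ⟨m, hm⟩ : ∃ m, N = m + 2 := ⟨N - 2, by omega⟩
  have h3 := hclaim m (by omega)
  have hNN : ((m : ZMod N) + 1) + 1 = 0 := by
    have : ((m + 2 : ℕ) : ZMod N) = 0 := by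
      rw [← hm]
      exact ZMod.natCast_self N
    rw [← this]
    push_cast
    ring
  have h4 : S N k = S N (k + 1) := by
    funext s
    rw [hS, ZMod.natCast_self, Ring.z2_add_self, add_zero]
  have h5 := (hSo N).const (by omega) h h0' h4 k hk.le (Or.inl le_rfl)
  have h6 : S N k 0 = S N k ((m : ZMod N) + 1) := by rw [h5, h5 ((m : ZMod N) + 1)]
  have h7 : D (m + 1) k 0 = 0 := by
    have := d1 (m + 1)
    rwa [Nat.cast_succ, hNN] at this
  have h8 : D (m + 1) k ((m : ZMod N) + 1) = 0 := by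
    have := d0 (m + 1)
    rwa [Nat.cast_succ] at this
  have h9 : ∀ s, S N k s = S (m + 1) k s + D (m + 1) k s := by
    intro s
    have : S (m + 1 + 1) k s = _ := hSs (m + 1) s
    rw [← this]
    congr 1
  rw [h9, h9, h7, h8, add_zero, add_zero] at h6
  rw [h6, Ring.z2_add_self] at h3
  have h10 : Odd m := by
    rw [hm] at hN
    rcases hN with ⟨q, hq⟩
    exact ⟨q - 1, by omega⟩
  have h11 : (m : ZMod 2) = 1 := by
    rw [ZMod.natCast_eq_one_iff_odd]
    exact h10
  rw [h11] at h3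
  exact zero_ne_one h3

/-- NEUTRAL PAIR on two consecutive letter-free edges, the height `s` is prescribed -/
theorem RC.pair (hN3 : 3 ≤ N) (hu : ∀ k < M, Far (u k)) (h : RC u M κ) {k : ℕ}
    (hk : k + 1 < M) (h0 : u k = []) (h1 : u (k + 1) = []) (s : ZMod N) :
    RC (Function.update (Function.update u k [s]) (k + 1) [s + 1]) M κ ∨
      RC (Function.update (Function.update u k [s + 1]) (k + 1) [s]) M κ := by
  classical
  have hN2 : 2 ≤ N := by omega
  have n1 : s ≠ s + 1 := ne_succ hN2 s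
  have n2 : s ≠ s + 1 + 1 := ne_succ_succ hN3 s
  have n3 : s + 1 ≠ s + 1 + 1 := ne_succ hN2 _
  have h0' : ∀ j, k ≤ j → j < k + 2 → u j = [] := by
    intro j h2 h3
    rcases (by omega : j = k ∨ j = k + 1) with rfl | rfl
    · exact h0
    · exact h1
  have hex : ∀ p q : ZMod N,
      ¬ RC (Function.update (Function.update u k [p]) (k + 1) [q]) M κ →
      ∃ R : ℕ → ZMod N → ZMod 2, Out u M κ k 2 R ∧ Step p (R k) (R (k + 1)) ∧
        Step q (R (k + 1)) (R (k + 2)) ∧ R (k + 1) (s + 1) = 0 ∧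
        ∃ i ≤ M, ∃ t, R i t ≠ R 0 0 := by
    intro p q hcon
    obtain ⟨R₀, hR₀⟩ := not_rc hcon
    obtain ⟨e1, e2, e3⟩ := rows_add hR₀ (R₀ (k + 1) (s + 1))
    refine ⟨fun j x => R₀ j x + R₀ (k + 1) (s + 1), ⟨fun j hj hj' => ?_, e2⟩, ?_, ?_,
      Ring.z2_add_self _, e3⟩
    · have h3 := e1 j hj
      rwa [Function.update_of_ne (by omega), Function.update_of_ne (by omega)] at h3
    · have h3 := e1 k (by omega)
      rw [Function.update_of_ne (by omega), Function.update_self] at h3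
      exact mstep_single h3
    · have h3 := e1 (k + 1) hk
      rw [Function.update_self] at h3
      exact mstep_single h3
  -- not constant
  have hnc : ∀ R : ℕ → ZMod N → ZMod 2, Out u M κ k 2 R → R k = R (k + 1) →
      R (k + 1) = R (k + 2) → (∃ i ≤ M, ∃ t, R i t ≠ R 0 0) → False := by
    rintro R hR h2 h3 ⟨i, hi, t, hit⟩
    have h4 := hR.const (by omega) h h0' (h2.trans h3)
    apply hit
    by_cases h5 : i = k + 1
    · rw [h5, ← h2]
      exact h4 k (by omega) (Or.inl le_rfl) t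
    · exact h4 i hi (by omega) t
  by_contra hcon
  rw [not_or] at hcon
  obtain ⟨C, cO, c1, c2, cm1, hkt⟩ := hex _ _ hcon.1
  obtain ⟨D, dO, d2, d1, dm1, hkt'⟩ := hex _ _ hcon.2
  have cm0 : C (k + 1) s = 0 := by rw [c1.2.2, cm1]
  have cm2 : C (k + 1) (s + 1 + 1) = 0 := by rw [← c2.2.1, cm1]
  have dm0 : D (k + 1) s = 0 := by rw [d1.2.1, dm1]
  have dm2 : D (k + 1) (s + 1 + 1) = 0 := by rw [← d2.2.2, dm1]
  have ca2 : C k (s + 1 + 1) = 0 := by rw [c1.1 _ n2.symm n3.symm, cm2]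
  have cb0 : C (k + 2) s = 0 := by rw [← c2.1 _ n1 n2, cm0]
  have da0 : D k s = 0 := by rw [d2.1 _ n1 n2, dm0]
  have db2 : D (k + 2) (s + 1 + 1) = 0 := by rw [← d1.1 _ n2.symm n3.symm, dm2]
  have ca1 : C k (s + 1) = C k s := c1.2.1.symm
  have cb1 : C (k + 2) (s + 1 + 1) = C (k + 2) (s + 1) := c2.2.2.symm
  have da1 : D k (s + 1 + 1) = D k (s + 1) := d2.2.1.symm
  have db1 : D (k + 2) (s + 1) = D (k + 2) s := d1.2.2.symm
  have coff : ∀ t, t ≠ s → t ≠ s + 1 → t ≠ s + 1 + 1 → C k t = C (k + 2) t :=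
    fun t h0 h1 h2 => (c1.1 t h0 h1).trans (c2.1 t h1 h2)
  have doff : ∀ t, t ≠ s → t ≠ s + 1 → t ≠ s + 1 + 1 → D k t = D (k + 2) t :=
    fun t h0 h1 h2 => (d2.1 t h1 h2).trans (d1.1 t h0 h1)
  -- not both values zero
  have hcne : C k s ≠ 0 ∨ C (k + 2) (s + 1) ≠ 0 := by
    by_contra h2
    push Not at h2
    obtain ⟨h2, h3⟩ := h2
    refine hnc C cO ?_ ?_ hkt
    · funext x
      by_cases s0 : x = s
      · rw [s0, h2, cm0]
      · by_cases s1 : x = s + 1
        · rw [s1, ca1, h2, cm1]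
        · exact c1.1 x s0 s1
    · funext x
      by_cases s0 : x = s + 1
      · rw [s0, cm1, h3]
      · by_cases s1 : x = s + 1 + 1
        · rw [s1, cm2, cb1, h3]
        · exact c2.1 x s0 s1
  have hdne : D k (s + 1) ≠ 0 ∨ D (k + 2) s ≠ 0 := by
    by_contra h2
    push Not at h2
    obtain ⟨h2, h3⟩ := h2
    refine hnc D dO ?_ ?_ hkt'
    · funext x
      by_cases s0 : x = s + 1
      · rw [s0, h2, dm1]
      · by_cases s1 : x = s + 1 + 1
        · rw [s1, da1, h2, dm2]
        · exact d2.1 x s0 s1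
    · funext x
      by_cases s0 : x = s
      · rw [s0, dm0, h3]
      · by_cases s1 : x = s + 1
        · rw [s1, dm1, db1, h3]
        · exact d1.1 x s0 s1
  -- the inner products
  have hin := cO.inner hN2 hu (by omega) dO
  have hsp : ∀ c : ZMod N → ZMod 2, ∑ t, c t =
      (∑ t ∈ univ \ {s, s + 1, s + 1 + 1}, c t) + (c s + (c (s + 1) + c (s + 1 + 1))) := by
    intro c
    rw [← sum_sdiff (subset_univ {s, s + 1, s + 1 + 1}), sum_insert (by simp [n1, n2]),
      sum_pair n3]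
  rw [hsp, hsp] at hin
  have hoff : ∑ t ∈ univ \ {s, s + 1, s + 1 + 1}, C k t * D k t =
      ∑ t ∈ univ \ {s, s + 1, s + 1 + 1}, C (k + 2) t * D (k + 2) t := by
    refine sum_congr rfl fun x hx => ?_
    simp only [mem_sdiff, mem_univ, mem_insert, mem_singleton, true_and, not_or] at hx
    rw [coff x hx.1 hx.2.1 hx.2.2, doff x hx.1 hx.2.1 hx.2.2]
  rw [hoff, add_right_inj, da0, ca2, cb0, db2, ca1] at hin
  simp only [mul_zero, zero_mul, zero_add, add_zero] at hin
  obtain ⟨k1, k2⟩ : C k s = D (k + 2) s ∧ D k (s + 1) = C (k + 2) (s + 1) := by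
    have h3 : ∀ a b a' b' : ZMod 2, (a ≠ 0 ∨ b ≠ 0) → (a' ≠ 0 ∨ b' ≠ 0) → a * a' = b * b' →
        a = b' ∧ a' = b := by decide
    refine h3 _ _ _ _ hcne hdne ?_
    rw [hin, db1]
  -- the sum solves the shorter word
  have hF := cO.map₂ dO fun x y => x + y
  have hFe : (fun t => C k t + D k t) = fun t => C (k + 2) t + D (k + 2) t := by
    funext x
    by_cases s0 : x = s
    · rw [s0, da0, cb0, k1, add_zero, zero_add]
    · by_cases s1 : x = s + 1
      · rw [s1, ca1, k1, k2, db1, add_comm]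
      · by_cases s2 : x = s + 1 + 1
        · rw [s2, ca2, da1, k2, cb1, db2, zero_add, add_zero]
        · rw [coff x s0 s1 s2, doff x s0 s1 s2]
  have hF' := hF.const (by omega) h h0' hFe k (by omega) (Or.inl le_rfl)
  have f0 := hF' s
  have f1 := hF' (s + 1)
  have f2 := hF' (s + 1 + 1)
  simp only [da0, ca1, ca2, da1, add_zero, zero_add] at f0 f1 f2
  have g1 : D k (s + 1) = 0 := by
    rw [← f0] at f1
    have h3 : ∀ a b : ZMod 2, a + b = a → b = 0 := by decide
    exact h3 _ _ f1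
  have g2 : C k s = 0 := by rw [f0, ← f2, g1]
  rcases hcne with h2 | h2
  · exact h2 g2
  · exact h2 (by rw [← k2, g1])

/-- letters on consecutive edges are in different gaps -/
theorem RC.disj (hN3 : 3 ≤ N) (hu : ∀ k < M, Far (u k)) (h : RC u M κ) {k : ℕ}
    (hk : k + 1 < M) {t : ZMod N} (ht : t ∈ u k) : t ∉ u (k + 1) := by
  intro ht'
  classical
  have hsym : ∀ j < M, ∀ a ∈ u j, ∀ b ∈ u j, a ≠ b → a ≠ b + 1 ∧ b ≠ a + 1 := by
    intro j hj a ha b hb hab
    have : Std.Symm (fun a b : ZMod N => a ≠ b ∧ a ≠ b + 1 ∧ b ≠ a + 1) :=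
      ⟨fun a b h => ⟨h.1.symm, h.2.2, h.2.1⟩⟩
    exact (List.Pairwise.forall (hu j hj) ha hb hab).2
  let f : ZMod N → ZMod 2 := fun s => if s = t ∨ s = t + 1 then 1 else 0
  have hf0 : ∀ s, s ≠ t → s ≠ t + 1 → f s = 0 := fun s h1 h2 => if_neg (by tauto)
  have hft : f t = 1 := if_pos (Or.inl rfl)
  have hft1 : f (t + 1) = 1 := if_pos (Or.inr rfl)
  let R : ℕ → ZMod N → ZMod 2 := fun j => if j = k + 1 then f else fun _ => 0
  have hf : ∀ j < M, t ∈ u j → ∀ s ∈ u j, f s = f (s + 1) := by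
    intro j hj htj s hs
    by_cases h1 : s = t
    · rw [h1, hft, hft1]
    · have h2 := hsym j hj s hs t htj h1
      rw [hf0 s h1 h2.1, hf0 (s + 1) (fun h3 => h2.2 h3.symm) fun h3 => h1 (add_right_cancel h3)]
  have hf' : ∀ j < M, t ∈ u j → ∀ s, s ∉ u j → s - 1 ∉ u j → f s = 0 := by
    intro j hj htj s h1 h2
    refine hf0 s (fun h3 => h1 (h3 ▸ htj)) fun h3 => h2 ?_
    rw [h3, add_sub_cancel_right]
    exact htj
  have h1 : ∀ j < M, MStep (u j) (R j) (R (j + 1)) := by
    intro j hj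
    by_cases hj1 : j = k
    · subst hj1
      have e1 : R j = fun _ => 0 := if_neg (by omega)
      have e2 : R (j + 1) = f := if_pos rfl
      rw [e1, e2]
      exact ⟨fun s h2 h3 => (hf' j hj ht s h2 h3).symm, fun s hs => ⟨rfl, hf j hj ht s hs⟩⟩
    · by_cases hj2 : j = k + 1
      · subst hj2
        have e1 : R (k + 1) = f := if_pos rfl
        have e2 : R (k + 1 + 1) = fun _ => 0 := if_neg (by omega)
        rw [e1, e2]
        exact ⟨fun s h2 h3 => hf' _ hj ht' s h2 h3, fun s hs => ⟨hf _ hj ht' s hs, rfl⟩⟩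
      · have e1 : R j = fun _ => 0 := if_neg hj2
        have e2 : R (j + 1) = fun _ => 0 := if_neg (by omega)
        rw [e1, e2]
        exact ⟨fun _ _ _ => rfl, fun _ _ => ⟨rfl, rfl⟩⟩
  have e0 : R 0 = fun _ => 0 := if_neg (by omega)
  have eM : R M = fun _ => 0 := if_neg (by omega)
  have h2 := h R h1 (fun s => by rw [e0, eM]) (k + 1) (by omega) t
  have e1 : R (k + 1) = f := if_pos rfl
  rw [e0, e1, hft] at h2
  exact one_ne_zero h2

end Pool.Agent.Helper71.TD
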